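import Pool.Agent.H21.BT.Targets
import Pool.Agent.H8.BS.BES

/-!
# Row BT of bt_modules: Bessel's inequality over all levels for tuples of exponentials
-/

set_option autoImplicit false

open Finset Pool.Agent.H6.N4D Pool.Agent.H21.BS Pool.Agent.H21.BT
open Pool.Agent.H8.BS (av_add av_sum av_conj av_re avr_nonneg avr_mono avr_add avr_mul sq_sum)

namespace Pool.Agent.H1.BT

theorem pf_BT (_hLVT : T_LVT) (hO1 : T_OT1) (hO2 : T_OT2) (hO3 : T_OT3) (hO4 : T_OT4) :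
    T_BT := by
  intro W hW
  obtain ⟨C1, hC1, h1⟩ := hO1 W hW
  obtain ⟨C2, hC2, h2⟩ := hO2 W hW
  obtain ⟨C3, hC3, h3⟩ := hO3 W hW
  refine ⟨C1 + C2 + 2 * C3, by positivity, ?_⟩
  intro S A R f F hS hf hF
  obtain ⟨hc, h4⟩ := hO4 W A S f hS hf
  obtain ⟨M, hM⟩ : ∃ M : ℝ, M = 3 + 6 * W := ⟨_, rfl⟩
  rw [← hM]
  have hM3 : 3 ≤ M := by linarith
  have hM0 : 0 < M := by linarith
  obtain ⟨κ, hκ⟩ : ∃ κ : ℝ, κ = (S.k : ℝ) ^ 4 * A ^ 2 := ⟨_, rfl⟩
  have hκ0 : 0 ≤ κ := by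
    rw [hκ]
    positivity
  obtain ⟨δ, hδ⟩ : ∃ δ : ℝ, δ = κ * (S.s 0 : ℝ) ^ (-(1 / 5) : ℝ) := ⟨_, rfl⟩
  have hδ0 : 0 ≤ δ := by
    rw [hδ]
    exact mul_nonneg hκ0 (Real.rpow_nonneg (Nat.cast_nonneg _) _)
  have g1 : ∀ i, 1 ≤ i → i ≤ S.K → avr S.U S.L (fun n => ‖S.Om (S.cf f) i n‖ ^ 2) ≤
      M * S.e f i + C1 * δ := by
    intro i hi hi2
    have h5 := h1 S A (S.cf f) hS hc i hi hi2
    rw [(h4 i hi hi2).1, ← hM, ← hκ, mul_assoc C1, ← hδ] at h5
    exact h5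
  have g2 : ∀ i j, 1 ≤ i → i < j → j ≤ S.K →
      ‖av S.U S.L fun n => S.Om (S.cf f) i n * starRingEnd ℂ (S.Om (S.cf f) j n)‖ ≤ C2 * δ := by
    intro i j hi hij hj
    have h5 := h2 S A (S.cf f) hS hc i j hi hij hj
    rw [← hκ, mul_assoc C2, ← hδ] at h5
    exact h5
  have g3 : ∀ i, 1 ≤ i → i ≤ S.K →
      ‖av S.U S.L fun n => F n * starRingEnd ℂ (S.Om (S.cf f) i n)‖ ≤ C3 * R * δ := by
    intro i hi hi2
    have h5 := h3 S A (S.cf f) R F hS hc hF i hi hi2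
    have h6 : C3 * ((S.k : ℝ) ^ 4 * A ^ 2) * R * (S.s 0 : ℝ) ^ (-(1 / 5) : ℝ) =
        C3 * R * δ := by
      rw [hδ, hκ]
      ring
    rw [h6] at h5
    exact h5
  set O : ℕ → ℕ → ℂ := fun i n => S.Om (S.cf f) i n with hO
  obtain ⟨e, he⟩ : ∃ e : ℕ → ℝ, e = fun i => S.e f i := ⟨_, rfl⟩
  have hE : S.E f = ∑ i ∈ Icc 1 S.K, e i := by
    rw [he]
    rfl
  have g1' : ∀ i, 1 ≤ i → i ≤ S.K → avr S.U S.L (fun n => ‖O i n‖ ^ 2) ≤
      M * e i + C1 * δ := by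
    intro i hi hi2
    rw [he]
    exact g1 i hi hi2
  set D : ℝ := avr S.U S.L (fun n => ‖f n - F n‖ ^ 2) with hD
  set B : ℝ := avr S.U S.L (fun n => ‖∑ i ∈ Icc 1 S.K, O i n‖ ^ 2) with hB
  have hD0 : 0 ≤ D := avr_nonneg _ _ _ fun n => by positivity
  have hK0 : (0 : ℝ) ≤ S.K := Nat.cast_nonneg _
  have hR0 : (0 : ℝ) ≤ R := Nat.cast_nonneg _
  -- the mean square of the sum of the dual functions
  have hB1 : B ≤ M * S.E f + (S.K * C1 + S.K ^ 2 * C2) * δ := by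
    rw [hB, sq_sum]
    have h5 : ∀ i ∈ Icc 1 S.K, ∑ j ∈ Icc 1 S.K,
        (av S.U S.L fun n => O i n * starRingEnd ℂ (O j n)).re ≤
          (M * e i + C1 * δ) + S.K * (C2 * δ) := by
      intro i hi
      rw [mem_Icc] at hi
      have h6 : ∀ j ∈ Icc 1 S.K, (av S.U S.L fun n => O i n * starRingEnd ℂ (O j n)).re ≤
          (if j = i then M * e i + C1 * δ else 0) + C2 * δ := by
        intro j hj
        rw [mem_Icc] at hj
        rcases lt_trichotomy j i with hji | hji | hji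
        · rw [if_neg hji.ne, zero_add]
          have h7 : (fun n => O i n * starRingEnd ℂ (O j n)) =
              fun n => starRingEnd ℂ (O j n * starRingEnd ℂ (O i n)) := by
            funext n
            rw [map_mul, Complex.conj_conj, mul_comm]
          rw [h7, av_conj, Complex.conj_re]
          exact (Complex.re_le_norm _).trans (g2 j i hj.1 hji hi.2)
        · subst hji
          rw [if_pos rfl]
          have h7 : (av S.U S.L fun n => O j n * starRingEnd ℂ (O j n)).re =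
              avr S.U S.L (fun n => ‖O j n‖ ^ 2) := by
            rw [av_re]
            congr 1
            funext n
            rw [Complex.mul_conj, Complex.ofReal_re, Complex.normSq_eq_norm_sq]
          rw [h7]
          have h8 := g1' j hj.1 hj.2
          have h9 : 0 ≤ C2 * δ := mul_nonneg hC2 hδ0
          linarith
        · rw [if_neg hji.ne', zero_add]
          exact (Complex.re_le_norm _).trans (g2 i j hi.1 hji hj.2)
      refine (sum_le_sum h6).trans (le_of_eq ?_)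
      rw [sum_add_distrib, sum_ite_eq' (Icc 1 S.K) i, if_pos (mem_Icc.2 hi), sum_const,
        Nat.card_Icc, nsmul_eq_mul, Nat.add_sub_cancel]
    refine (sum_le_sum h5).trans (le_of_eq ?_)
    rw [sum_add_distrib, sum_add_distrib, sum_const, sum_const, Nat.card_Icc,
      Nat.add_sub_cancel, nsmul_eq_mul, nsmul_eq_mul, hE, mul_sum]
    ring
  -- the energy as an inner product
  have hE1 : S.E f = (av S.U S.L fun n => f n * starRingEnd ℂ (∑ i ∈ Icc 1 S.K, O i n)).re := by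
    have h5 : (fun n => f n * starRingEnd ℂ (∑ i ∈ Icc 1 S.K, O i n)) =
        fun n => ∑ i ∈ Icc 1 S.K, f n * starRingEnd ℂ (O i n) := by
      funext n
      rw [map_sum, mul_sum]
    rw [h5, av_sum, Complex.re_sum, hE]
    refine sum_congr rfl fun i hi => ?_
    rw [mem_Icc] at hi
    rw [(h4 i hi.1 hi.2).2, Complex.ofReal_re, he]
  have hE2 : S.E f ≤ (M / 2 * D + 1 / (2 * M) * B) + S.K * (C3 * R * δ) := by
    have h5 : (fun n => f n * starRingEnd ℂ (∑ i ∈ Icc 1 S.K, O i n)) =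
        fun n => (f n - F n) * starRingEnd ℂ (∑ i ∈ Icc 1 S.K, O i n) +
          ∑ i ∈ Icc 1 S.K, F n * starRingEnd ℂ (O i n) := by
      funext n
      rw [← mul_sum, ← map_sum]
      ring
    rw [hE1, h5, av_add, Complex.add_re, av_sum, Complex.re_sum]
    refine add_le_add ?_ ?_
    · rw [av_re, hD, hB]
      have h6 : M / 2 * avr S.U S.L (fun n => ‖f n - F n‖ ^ 2) +
          1 / (2 * M) * avr S.U S.L (fun n => ‖∑ i ∈ Icc 1 S.K, O i n‖ ^ 2) =
          avr S.U S.L (fun n => M / 2 * ‖f n - F n‖ ^ 2 +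
            1 / (2 * M) * ‖∑ i ∈ Icc 1 S.K, O i n‖ ^ 2) := by
        rw [avr_add, avr_mul, avr_mul]
      rw [h6]
      refine avr_mono _ _ _ _ fun n => ?_
      refine (Complex.re_le_norm _).trans ?_
      rw [norm_mul, RCLike.norm_conj]
      obtain ⟨x, hx⟩ : ∃ x : ℝ, x = ‖f n - F n‖ := ⟨_, rfl⟩
      obtain ⟨y, hy⟩ : ∃ y : ℝ, y = ‖∑ i ∈ Icc 1 S.K, O i n‖ := ⟨_, rfl⟩
      rw [← hx, ← hy]
      have h7 : M / 2 * x ^ 2 + 1 / (2 * M) * y ^ 2 - x * y = (M * x - y) ^ 2 / (2 * M) := by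
        field_simp
        ring
      have h8 : 0 ≤ (M * x - y) ^ 2 / (2 * M) := by positivity
      linarith
    · have h6 : ∀ i ∈ Icc 1 S.K, (av S.U S.L fun n => F n * starRingEnd ℂ (O i n)).re ≤
          C3 * R * δ := by
        intro i hi
        rw [mem_Icc] at hi
        exact (Complex.re_le_norm _).trans (g3 i hi.1 hi.2)
      refine (sum_le_sum h6).trans (le_of_eq ?_)
      rw [sum_const, Nat.card_Icc, Nat.add_sub_cancel, nsmul_eq_mul]
  have hKK : (S.K : ℝ) ≤ (S.K : ℝ) ^ 2 := by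
    rcases Nat.eq_zero_or_pos S.K with h | h
    · rw [h]
      norm_num
    · have : (1 : ℝ) ≤ S.K := by exact_mod_cast h
      nlinarith
  obtain ⟨T, hT⟩ : ∃ T : ℝ, T = (S.K * C1 + (S.K : ℝ) ^ 2 * C2) * δ := ⟨_, rfl⟩
  have hT0 : 0 ≤ T := by
    rw [hT]
    positivity
  rw [← hT] at hB1
  have h7 : T ≤ (C1 + C2) * (S.K : ℝ) ^ 2 * δ := by
    have : S.K * C1 + (S.K : ℝ) ^ 2 * C2 ≤ (C1 + C2) * (S.K : ℝ) ^ 2 := by nlinarith
    rw [hT]
    exact mul_le_mul_of_nonneg_right this hδ0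
  have h8 : 1 / (2 * M) * B ≤ S.E f / 2 + T / 2 := by
    have h9 : 1 / (2 * M) * B ≤ 1 / (2 * M) * (M * S.E f + T) :=
      mul_le_mul_of_nonneg_left hB1 (by positivity)
    have h10 : 1 / (2 * M) * (M * S.E f + T) = S.E f / 2 + T / (2 * M) := by
      field_simp
    have h11 : T / (2 * M) ≤ T / 2 :=
      div_le_div_of_nonneg_left hT0 (by norm_num) (by linarith)
    linarith
  have h12 : S.E f ≤ M * D + T + 2 * (S.K * (C3 * R * δ)) := by linarith
  have h13 : 0 ≤ C3 * (S.K : ℝ) ^ 2 * δ := by positivity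
  have h14 : 0 ≤ (C1 + C2) * (S.K * R) * δ := by positivity
  have h15 : (C1 + C2 + 2 * C3) * ((S.k : ℝ) ^ 4 * A ^ 2) * ((S.K : ℝ) ^ 2 + S.K * R) *
      (S.s 0 : ℝ) ^ (-(1 / 5) : ℝ) = (C1 + C2 + 2 * C3) * ((S.K : ℝ) ^ 2 + S.K * R) * δ := by
    rw [hδ, hκ]
    ring
  rw [h15]
  calc S.E f ≤ M * D + (C1 + C2) * (S.K : ℝ) ^ 2 * δ + 2 * (S.K * (C3 * R * δ)) := by
        linarith
    _ ≤ M * D + (C1 + C2 + 2 * C3) * ((S.K : ℝ) ^ 2 + S.K * R) * δ := by linarith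

end Pool.Agent.H1.BT
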