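import Pool.Agent.H21.BT.Targets

/-!
# Row DIT of bt_modules: the mean square of the dual function
-/

set_option autoImplicit false

open Finset Pool.Agent.H6.N4D Pool.Agent.H21.BS Pool.Agent.H21.BT

namespace Pool.Agent.H1.BT

lemma dit_om (V : TC) (z : ℕ → ℂ) (n : ℕ) :
    ‖V.om z n‖ ≤ ∑ q ∈ V.Q, 1 / (q : ℝ) * ‖z q‖ * ‖V.u q n‖ := by
  unfold TC.om
  refine (norm_sum_le _ _).trans (le_of_eq (sum_congr rfl fun q _ => ?_))
  rw [norm_mul, norm_mul, norm_div, norm_one, Complex.norm_natCast]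

lemma dit_sq (V : TC) (z : ℕ → ℂ) :
    ∑ x ∈ range V.N, ‖V.om z (V.a + x)‖ ^ 2 ≤ ∑ q ∈ V.Q, ∑ p ∈ V.Q,
      (1 / (q : ℝ) * ‖z q‖) * (1 / (p : ℝ) * ‖z p‖) *
        ∑ x ∈ range V.N, ‖V.u q (V.a + x)‖ * ‖V.u p (V.a + x)‖ := by
  have h1 : ∀ x ∈ range V.N, ‖V.om z (V.a + x)‖ ^ 2 ≤ ∑ q ∈ V.Q, ∑ p ∈ V.Q,
      (1 / (q : ℝ) * ‖z q‖) * (1 / (p : ℝ) * ‖z p‖) *
        (‖V.u q (V.a + x)‖ * ‖V.u p (V.a + x)‖) := by
    intro x _
    calc ‖V.om z (V.a + x)‖ ^ 2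
        ≤ (∑ q ∈ V.Q, 1 / (q : ℝ) * ‖z q‖ * ‖V.u q (V.a + x)‖) ^ 2 :=
          pow_le_pow_left₀ (norm_nonneg _) (dit_om V z _) 2
      _ = _ := by
          rw [sq, sum_mul_sum]
          refine sum_congr rfl fun q _ => sum_congr rfl fun p _ => ?_
          ring
  refine (sum_le_sum h1).trans (le_of_eq ?_)
  rw [sum_comm]
  refine sum_congr rfl fun q _ => ?_
  rw [sum_comm]
  refine sum_congr rfl fun p _ => ?_
  rw [mul_sum]

theorem pf_DIT (hEXC : T_EXC) (hTRV : T_TRV) (hPRG : T_PRG) : T_DIT := by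
  classical
  intro W hW
  refine ⟨300 * (1 + W) ^ 2, by positivity, ?_⟩
  intro A P V z hV hk hz
  obtain ⟨-, t2, t3⟩ := hTRV W A P V hV
  obtain ⟨c, hc⟩ : ∃ c : ℕ → ℝ, ∀ q, c q = 1 / (q : ℝ) := ⟨_, fun _ => rfl⟩
  have hc0 : ∀ q, 0 ≤ c q := fun q => by
    rw [hc]
    positivity
  obtain ⟨ζ, hζ⟩ : ∃ ζ : ℕ → ℝ, ∀ q, ζ q = ‖z q‖ := ⟨_, fun _ => rfl⟩
  have hζ0 : ∀ q, 0 ≤ ζ q := fun q => by
    rw [hζ]
    exact norm_nonneg _
  have hζ3 : ∀ q, ζ q ≤ 3 := fun q => by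
    rw [hζ]
    exact hz q
  obtain ⟨Sg, hSg⟩ : ∃ Sg : ℕ → ℕ → ℝ, ∀ q p, Sg q p =
      ∑ x ∈ range V.N, ‖V.u q (V.a + x)‖ * ‖V.u p (V.a + x)‖ := ⟨_, fun _ _ => rfl⟩
  have hN1 : (1 : ℝ) ≤ V.N := by exact_mod_cast hV.N1
  have hP1 : (1 : ℝ) ≤ P := by exact_mod_cast hV.P1
  have hk1 : (1 : ℝ) ≤ V.k := by exact_mod_cast hk
  obtain ⟨N, hN⟩ : ∃ N : ℝ, N = V.N := ⟨_, rfl⟩
  obtain ⟨κ, hκ⟩ : ∃ κ : ℝ, κ = (V.k * A) ^ 2 := ⟨_, rfl⟩
  have hκ0 : 0 ≤ κ := by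
    rw [hκ]
    positivity
  obtain ⟨θ, hθ⟩ : ∃ θ : ℝ, θ = N ^ (3 / 5 : ℝ) := ⟨_, rfl⟩
  have hN0 : 0 ≤ N := by
    rw [hN]
    positivity
  have hθ0 : 0 ≤ θ := by
    rw [hθ]
    exact Real.rpow_nonneg hN0 _
  obtain ⟨B, hB⟩ : ∃ B : ℝ, B = 6 * N + 3 * κ * θ := ⟨_, rfl⟩
  have hB0 : 0 ≤ B := by
    rw [hB]
    positivity
  have hS0 : ∀ q p, 0 ≤ Sg q p := fun q p => by
    rw [hSg]
    exact sum_nonneg fun _ _ => by positivity
  -- one pair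
  have hpair : ∀ q ∈ V.Q, ∀ p ∈ V.Q, (c q * ζ q) * (c p * ζ p) * Sg q p ≤
      (if p = q then 3 * N * (c q * ζ q ^ 2) else 0) + (c q * ζ q) * (c p * ζ p) * B +
      (if p ≠ q ∧ V.Ex q p then 72 * κ * N * (c q * c p) else 0) +
      (if q ≠ p ∧ V.Ex p q then 72 * κ * N * (c q * c p) else 0) := by
    intro q hq p hp
    have hcz : 0 ≤ (c q * ζ q) * (c p * ζ p) :=
      mul_nonneg (mul_nonneg (hc0 q) (hζ0 q)) (mul_nonneg (hc0 p) (hζ0 p))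
    have i1 : 0 ≤ (if p = q then 3 * N * (c q * ζ q ^ 2) else 0) := by
      split_ifs
      · exact mul_nonneg (by positivity) (mul_nonneg (hc0 q) (sq_nonneg _))
      · exact le_rfl
    have i2 : 0 ≤ (c q * ζ q) * (c p * ζ p) * B := mul_nonneg hcz hB0
    have hcc : 0 ≤ 72 * κ * N * (c q * c p) :=
      mul_nonneg (by positivity) (mul_nonneg (hc0 q) (hc0 p))
    have i3 : 0 ≤ (if p ≠ q ∧ V.Ex q p then 72 * κ * N * (c q * c p) else 0) := by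
      split_ifs
      · exact hcc
      · exact le_rfl
    have i4 : 0 ≤ (if q ≠ p ∧ V.Ex p q then 72 * κ * N * (c q * c p) else 0) := by
      split_ifs
      · exact hcc
      · exact le_rfl
    by_cases hpq : p = q
    · rw [if_pos hpq] at i1 ⊢
      rw [hpq] at i2 i3 i4 ⊢
      have h1 : Sg q q ≤ 3 * q * N := by
        rw [hSg, hN]
        refine le_trans (le_of_eq (sum_congr rfl fun x _ => ?_)) (t2 q hq)
        rw [sq]
      have hq0 : (0 : ℝ) < q := by exact_mod_cast (hV.pr q hq).pos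
      have h2 : (c q * ζ q) * (c q * ζ q) * Sg q q ≤ (c q * ζ q) * (c q * ζ q) * (3 * q * N) :=
        mul_le_mul_of_nonneg_left h1 (mul_self_nonneg _)
      have h3 : (c q * ζ q) * (c q * ζ q) * (3 * q * N) = 3 * N * (c q * ζ q ^ 2) := by
        rw [hc]
        field_simp
      linarith
    · have hqp : q ≠ p := fun h => hpq h.symm
      by_cases hE : V.Ex q p ∨ V.Ex p q
      · have h1 : Sg q p ≤ 8 * κ * N := by
          rw [hSg, hN, hκ]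
          exact t3 q hq p hp hqp
        have h2 : (c q * ζ q) * (c p * ζ p) * Sg q p ≤ 72 * κ * N * (c q * c p) := by
          have h3 : ζ q * ζ p ≤ 9 := by
            have := mul_le_mul (hζ3 q) (hζ3 p) (hζ0 p) (by norm_num)
            linarith
          have h4 : (ζ q * ζ p) * Sg q p ≤ 9 * (8 * κ * N) :=
            mul_le_mul h3 h1 (hS0 q p) (by norm_num)
          have h5 := mul_le_mul_of_nonneg_left h4 (mul_nonneg (hc0 q) (hc0 p))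
          linarith
        rcases hE with h | h
        · rw [if_pos (⟨hpq, h⟩ : p ≠ q ∧ V.Ex q p)]
          linarith
        · rw [if_pos (⟨hqp, h⟩ : q ≠ p ∧ V.Ex p q)]
          linarith
      · rw [not_or] at hE
        have h1 : Sg q p ≤ B := by
          rw [hSg, hB, hθ, hN, hκ]
          exact hPRG W A P V hV q hq p hp hqp hE.1 hE.2
        have h2 := mul_le_mul_of_nonneg_left h1 hcz
        linarith
  -- sums
  have hcW : ∑ q ∈ V.Q, c q ≤ W := by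
    have h := hV.wt
    simp only [hc]
    exact h
  obtain ⟨Z, hZ⟩ : ∃ Z : ℝ, Z = ∑ q ∈ V.Q, c q * ζ q ^ 2 := ⟨_, rfl⟩
  have hZ0 : 0 ≤ Z := by
    rw [hZ]
    exact sum_nonneg fun q _ => mul_nonneg (hc0 q) (sq_nonneg _)
  obtain ⟨Y, hY⟩ : ∃ Y : ℝ, Y = ∑ q ∈ V.Q, c q * ζ q := ⟨_, rfl⟩
  have hY0 : 0 ≤ Y := by
    rw [hY]
    exact sum_nonneg fun q _ => mul_nonneg (hc0 q) (hζ0 q)
  have hYW : Y ≤ 3 * W := by
    rw [hY]
    calc ∑ q ∈ V.Q, c q * ζ q ≤ ∑ q ∈ V.Q, c q * 3 :=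
          sum_le_sum fun q _ => mul_le_mul_of_nonneg_left (hζ3 q) (hc0 q)
      _ = (∑ q ∈ V.Q, c q) * 3 := by rw [sum_mul]
      _ ≤ 3 * W := by linarith
  have hYZ : Y ^ 2 ≤ W * Z := by
    have h1 : (∑ q ∈ V.Q, Real.sqrt (c q) * (Real.sqrt (c q) * ζ q)) ^ 2 ≤
        (∑ q ∈ V.Q, Real.sqrt (c q) ^ 2) * ∑ q ∈ V.Q, (Real.sqrt (c q) * ζ q) ^ 2 :=
      sum_mul_sq_le_sq_mul_sq _ _ _
    have h2 : ∑ q ∈ V.Q, Real.sqrt (c q) * (Real.sqrt (c q) * ζ q) = Y := by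
      rw [hY]
      refine sum_congr rfl fun q _ => ?_
      rw [← mul_assoc, Real.mul_self_sqrt (hc0 q)]
    have h3 : ∑ q ∈ V.Q, Real.sqrt (c q) ^ 2 = ∑ q ∈ V.Q, c q :=
      sum_congr rfl fun q _ => Real.sq_sqrt (hc0 q)
    have h4 : ∑ q ∈ V.Q, (Real.sqrt (c q) * ζ q) ^ 2 = Z := by
      rw [hZ]
      refine sum_congr rfl fun q _ => ?_
      rw [mul_pow, Real.sq_sqrt (hc0 q)]
    rw [h2, h3, h4] at h1
    exact h1.trans (mul_le_mul_of_nonneg_right hcW hZ0)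
  have hex : ∑ q ∈ V.Q, ∑ p ∈ V.Q,
      (if p ≠ q ∧ V.Ex q p then 72 * κ * N * (c q * c p) else 0) ≤
      72 * κ * N * (W * ((V.k : ℝ) ^ 2 / P)) := by
    have h1 : ∀ q ∈ V.Q, ∑ p ∈ V.Q,
        (if p ≠ q ∧ V.Ex q p then 72 * κ * N * (c q * c p) else 0) ≤
        72 * κ * N * (c q * ((V.k : ℝ) ^ 2 / P)) := by
      intro q hq
      rw [← sum_filter]
      have h2 : ∀ p ∈ V.Q.filter (fun p => p ≠ q ∧ V.Ex q p),
          72 * κ * N * (c q * c p) ≤ 72 * κ * N * (c q * (1 / P)) := by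
        intro p hp
        rw [mem_filter] at hp
        have h3 : c p ≤ 1 / P := by
          rw [hc]
          exact one_div_le_one_div_of_le (by linarith) (by exact_mod_cast hV.lo p hp.1)
        exact mul_le_mul_of_nonneg_left (mul_le_mul_of_nonneg_left h3 (hc0 q)) (by positivity)
      refine (sum_le_sum h2).trans ?_
      rw [sum_const, nsmul_eq_mul]
      have h4 := hEXC W A P V hV q hq
      have h5 : 0 ≤ 72 * κ * N * (c q * (1 / P)) :=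
        mul_nonneg (by positivity) (mul_nonneg (hc0 q) (by positivity))
      refine (mul_le_mul_of_nonneg_right h4 h5).trans (le_of_eq ?_)
      ring
    refine (sum_le_sum h1).trans ?_
    rw [← mul_sum, ← sum_mul]
    exact mul_le_mul_of_nonneg_left (mul_le_mul_of_nonneg_right hcW (by positivity))
      (by positivity)
  have hex2 : ∑ q ∈ V.Q, ∑ p ∈ V.Q,
      (if q ≠ p ∧ V.Ex p q then 72 * κ * N * (c q * c p) else 0) ≤
      72 * κ * N * (W * ((V.k : ℝ) ^ 2 / P)) := by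
    rw [sum_comm]
    refine le_trans (le_of_eq (sum_congr rfl fun q _ => sum_congr rfl fun p _ => ?_)) hex
    rw [mul_comm (c p) (c q)]
  have hmain : ∑ x ∈ range V.N, ‖V.om z (V.a + x)‖ ^ 2 ≤
      3 * N * Z + Y ^ 2 * B + 2 * (72 * κ * N * (W * ((V.k : ℝ) ^ 2 / P))) := by
    have h1 := dit_sq V z
    have h2 : ∑ q ∈ V.Q, ∑ p ∈ V.Q, (1 / (q : ℝ) * ‖z q‖) * (1 / (p : ℝ) * ‖z p‖) *
        ∑ x ∈ range V.N, ‖V.u q (V.a + x)‖ * ‖V.u p (V.a + x)‖ ≤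
        ∑ q ∈ V.Q, ∑ p ∈ V.Q,
        ((if p = q then 3 * N * (c q * ζ q ^ 2) else 0) + (c q * ζ q) * (c p * ζ p) * B +
        (if p ≠ q ∧ V.Ex q p then 72 * κ * N * (c q * c p) else 0) +
        (if q ≠ p ∧ V.Ex p q then 72 * κ * N * (c q * c p) else 0)) := by
      refine sum_le_sum fun q hq => sum_le_sum fun p hp => ?_
      have h3 := hpair q hq p hp
      rw [hc q, hc p, hζ q, hζ p, hSg] at h3
      rw [hc q, hc p, hζ q, hζ p]
      exact h3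
    refine h1.trans (h2.trans ?_)
    simp only [sum_add_distrib]
    have e1 : ∑ q ∈ V.Q, ∑ p ∈ V.Q, (if p = q then 3 * N * (c q * ζ q ^ 2) else 0) =
        3 * N * Z := by
      rw [hZ, mul_sum]
      refine sum_congr rfl fun q hq => ?_
      rw [sum_ite_eq' V.Q q, if_pos hq]
    have e2 : ∑ q ∈ V.Q, ∑ p ∈ V.Q, (c q * ζ q) * (c p * ζ p) * B = Y ^ 2 * B := by
      rw [sq, hY, sum_mul_sum, sum_mul]
      refine sum_congr rfl fun q _ => ?_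
      rw [sum_mul]
    rw [e1, e2]
    linarith
  have hpow : θ = N * N ^ (-(2 / 5) : ℝ) := by
    have hNp : 0 < N := by
      rw [hN]
      linarith
    rw [hθ]
    have h1 : N ^ (3 / 5 : ℝ) = N ^ ((1 : ℝ) + -(2 / 5)) := by norm_num
    rw [h1, Real.rpow_add hNp, Real.rpow_one]
  obtain ⟨ν, hν⟩ : ∃ ν : ℝ, ν = N ^ (-(2 / 5) : ℝ) := ⟨_, rfl⟩
  have hν0 : 0 ≤ ν := by
    rw [hν]
    exact Real.rpow_nonneg hN0 _
  obtain ⟨μ, hμ⟩ : ∃ μ : ℝ, μ = (V.k : ℝ) ^ 4 * A ^ 2 := ⟨_, rfl⟩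
  have hk2 : (1 : ℝ) ≤ (V.k : ℝ) ^ 2 := one_le_pow₀ hk1
  have hμκ : κ * (V.k : ℝ) ^ 2 = μ := by
    rw [hκ, hμ]
    ring
  have hκμ : κ ≤ μ := by
    rw [← hμκ]
    exact le_mul_of_one_le_right hκ0 hk2
  have hμ0 : 0 ≤ μ := hκ0.trans hκμ
  have hYB : Y ^ 2 * B ≤ 6 * N * (W * Z) + 27 * W ^ 2 * (μ * (N * ν)) := by
    have h1 : Y ^ 2 ≤ 9 * W ^ 2 := by nlinarith
    have h2 : Y ^ 2 * (6 * N) ≤ 6 * N * (W * Z) := by
      have := mul_le_mul_of_nonneg_right hYZ (by positivity : 0 ≤ 6 * N)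
      linarith
    have h3 : Y ^ 2 * (3 * κ * θ) ≤ 27 * W ^ 2 * (μ * (N * ν)) := by
      have h4 : Y ^ 2 * (3 * κ * θ) ≤ 9 * W ^ 2 * (3 * κ * θ) :=
        mul_le_mul_of_nonneg_right h1 (by positivity)
      have h5 : 9 * W ^ 2 * (3 * κ * θ) ≤ 9 * W ^ 2 * (3 * μ * θ) :=
        mul_le_mul_of_nonneg_left (mul_le_mul_of_nonneg_right
          (mul_le_mul_of_nonneg_left hκμ (by norm_num)) hθ0) (by positivity)
      rw [hpow, ← hν] at h5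
      rw [hpow, ← hν] at h4
      rw [hpow, ← hν]
      linarith
    rw [hB, mul_add]
    linarith
  have hgoal : ∑ q ∈ V.Q, 1 / (q : ℝ) * ‖z q‖ ^ 2 = Z := by
    rw [hZ]
    refine sum_congr rfl fun q _ => ?_
    rw [hc, hζ]
  rw [hgoal, ← hN, ← hν, ← hμ]
  refine hmain.trans ?_
  have h3 : 2 * (72 * κ * N * (W * ((V.k : ℝ) ^ 2 / P))) = 144 * W * (μ * N * (1 / P)) := by
    rw [← hμκ]
    ring
  rw [h3]
  have h4 : 27 * W ^ 2 * (μ * (N * ν)) ≤ 300 * (1 + W) ^ 2 * (μ * (N * ν)) :=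
    mul_le_mul_of_nonneg_right (by nlinarith) (by positivity)
  have h5 : 144 * W * (μ * N * (1 / P)) ≤ 300 * (1 + W) ^ 2 * (μ * N * (1 / P)) :=
    mul_le_mul_of_nonneg_right (by nlinarith) (by positivity)
  calc 3 * N * Z + Y ^ 2 * B + 144 * W * (μ * N * (1 / P))
      ≤ 3 * N * Z + (6 * N * (W * Z) + 27 * W ^ 2 * (μ * (N * ν))) +
        144 * W * (μ * N * (1 / P)) := by linarith
    _ ≤ 3 * N * Z + 6 * N * (W * Z) + 300 * (1 + W) ^ 2 * (μ * (N * ν)) +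
        300 * (1 + W) ^ 2 * (μ * N * (1 / P)) := by linarith
    _ = N * ((3 + 6 * W) * Z + 300 * (1 + W) ^ 2 * μ * (1 / P + ν)) := by ring

end Pool.Agent.H1.BT
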