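import Pool.Agent.H21.BT.Targets

/-!
# Row OT2 of bt_modules: the inner product of two levels, sums of `k` exponentials
-/

set_option autoImplicit false

open Finset Pool.Agent.H6.N4D Pool.Agent.H21.BS Pool.Agent.H21.BT

namespace Pool.Agent.H1.BT

theorem pf_OT2 (_hLVT : T_LVT) (hOMF : T_OMF) (hOM2 : T_OM2) : T_OT2 := by
  intro W _
  obtain ⟨C, hC, h⟩ := hOM2 W
  refine ⟨C, hC, ?_⟩
  intro S A z hS hz i j hi hij hj
  obtain ⟨f1, f2, f3⟩ := hOMF S W A z hS hz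
  set δ : ℝ := (S.s 0 : ℝ) ^ (-(1 / 5) : ℝ) with hδ
  have hδ0 : 0 ≤ δ := Real.rpow_nonneg (Nat.cast_nonneg _) _
  obtain ⟨O, hO⟩ : ∃ O : ℕ → ℕ → ℕ → ℂ, ∀ r l n, O r l n =
      (S.fam fun _ => r).Om (S.fc A z fun _ => r) l n := ⟨_, fun _ _ _ => rfl⟩
  have h1 : ∀ r < S.k, ∀ r' < S.k,
      ‖av S.U S.L fun n => O r i n * starRingEnd ℂ (O r' j n)‖ ≤ C * δ := by
    intro r hr r' hr'
    obtain ⟨ρ, hρ⟩ : ∃ ρ : ℕ → ℕ, ∀ l, ρ l = if l ≤ i then r else r' := ⟨_, fun _ => rfl⟩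
    have hρk : ∀ l, ρ l < S.k := by
      intro l
      rw [hρ]
      split_ifs
      · exact hr
      · exact hr'
    have hρi : ρ i = r := by rw [hρ, if_pos le_rfl]
    have hρj : ρ j = r' := by rw [hρ, if_neg (by omega)]
    have h2 := h (S.fam ρ) (S.fc A z ρ) (hS.fm ρ hρk) (f1 ρ hρk) i j hi hij hj
    have h3 : (fun n => (S.fam ρ).Om (S.fc A z ρ) i n *
        starRingEnd ℂ ((S.fam ρ).Om (S.fc A z ρ) j n)) =
        fun n => O r i n * starRingEnd ℂ (O r' j n) := by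
      funext n
      rw [f2 ρ i n, f2 ρ j n, hρi, hρj, hO, hO]
    rw [h3] at h2
    exact h2
  have h4 : (av S.U S.L fun n => S.Om z i n * starRingEnd ℂ (S.Om z j n)) =
      (A : ℂ) ^ 2 * ∑ r ∈ range S.k, ∑ r' ∈ range S.k,
        av S.U S.L fun n => O r i n * starRingEnd ℂ (O r' j n) := by
    have h5 : ∀ x ∈ range S.L, S.Om z i (S.U + x) * starRingEnd ℂ (S.Om z j (S.U + x)) =
        (A : ℂ) ^ 2 * ∑ r ∈ range S.k, ∑ r' ∈ range S.k,
          O r i (S.U + x) * starRingEnd ℂ (O r' j (S.U + x)) := by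
      intro x hx
      rw [mem_range] at hx
      rw [f3 i x hi (by omega) hx, f3 j x (by omega) hj hx, map_mul, Complex.conj_ofReal,
        map_sum]
      have h6 : ∑ r ∈ range S.k, ∑ r' ∈ range S.k,
          O r i (S.U + x) * starRingEnd ℂ (O r' j (S.U + x)) =
          (∑ r ∈ range S.k, O r i (S.U + x)) *
            ∑ r' ∈ range S.k, starRingEnd ℂ (O r' j (S.U + x)) := by
        rw [sum_mul_sum]
      rw [h6]
      simp only [hO]
      ring
    unfold av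
    rw [sum_congr rfl h5, ← mul_sum, mul_div_assoc, sum_comm, sum_div]
    congr 1
    refine sum_congr rfl fun r _ => ?_
    rw [sum_comm, sum_div]
  rw [h4, norm_mul, norm_pow, Complex.norm_real, Real.norm_eq_abs, sq_abs]
  have h7 : ‖∑ r ∈ range S.k, ∑ r' ∈ range S.k,
      av S.U S.L fun n => O r i n * starRingEnd ℂ (O r' j n)‖ ≤ (S.k : ℝ) ^ 2 * (C * δ) := by
    calc ‖∑ r ∈ range S.k, ∑ r' ∈ range S.k,
        av S.U S.L fun n => O r i n * starRingEnd ℂ (O r' j n)‖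
        ≤ ∑ r ∈ range S.k, ∑ r' ∈ range S.k, C * δ := by
          refine (norm_sum_le _ _).trans (sum_le_sum fun r hr => ?_)
          refine (norm_sum_le _ _).trans (sum_le_sum fun r' hr' => ?_)
          exact h1 r (mem_range.1 hr) r' (mem_range.1 hr')
      _ = (S.k : ℝ) ^ 2 * (C * δ) := by
          rw [sum_const, sum_const, card_range, nsmul_eq_mul, nsmul_eq_mul]
          ring
  have hk : (1 : ℝ) ≤ S.k := by exact_mod_cast hS.k1
  have h8 : (S.k : ℝ) ^ 2 ≤ (S.k : ℝ) ^ 4 := pow_le_pow_right₀ hk (by norm_num)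
  calc A ^ 2 * ‖∑ r ∈ range S.k, ∑ r' ∈ range S.k,
        av S.U S.L fun n => O r i n * starRingEnd ℂ (O r' j n)‖
      ≤ A ^ 2 * ((S.k : ℝ) ^ 2 * (C * δ)) := mul_le_mul_of_nonneg_left h7 (sq_nonneg A)
    _ ≤ A ^ 2 * ((S.k : ℝ) ^ 4 * (C * δ)) :=
        mul_le_mul_of_nonneg_left (mul_le_mul_of_nonneg_right h8 (by positivity)) (sq_nonneg A)
    _ = C * ((S.k : ℝ) ^ 4 * A ^ 2) * δ := by ring

end Pool.Agent.H1.BT
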